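import Pool.Agent.PQP.StmtsT
import Pool.Agent.Common_Brouwer.Schauder

/-! Squad PQP, block T, row ES1 (helper62): the one dimensional case of the essential maps. -/

set_option autoImplicit false

open scoped Topology
open Filter Set Metric

noncomputable section

namespace Pool.Agent.PQP.H62

open Pool.Agent.PQP

/-- the Schauder projection -/
theorem proj {E : Type} [NormedAddCommGroup E] [NormedSpace ℝ E] {K : Set E} (hK : IsCompact K)
    {ε : ℝ} (hε : 0 < ε) : ∃ (t : Finset E) (p : E → E), ContinuousOn p K ∧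
      (∀ x, p x ∈ Submodule.span ℝ (t : Set E)) ∧ ∀ x ∈ K, ‖p x - x‖ ≤ ε := by
  classical
  obtain ⟨t, -, hcov⟩ := hK.elim_nhds_subcover (fun x => ball x ε)
    (fun x _ => ball_mem_nhds x hε)
  obtain ⟨κ, hκ⟩ : ∃ κ : E → E → ℝ, ∀ z q, κ z q = max 0 (ε - dist z q) := ⟨_, fun _ _ => rfl⟩
  have hκc : ∀ q, Continuous fun z => κ z q := by
    intro q
    simp only [hκ]
    exact continuous_const.max (continuous_const.sub (continuous_id.dist continuous_const))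
  have hκ0 : ∀ z q, 0 ≤ κ z q := fun z q => by rw [hκ]; exact le_max_left _ _
  have hS : ∀ z ∈ K, 0 < ∑ q ∈ t, κ z q := by
    intro z hz
    obtain ⟨q, hq, hzq⟩ := mem_iUnion₂.1 (hcov hz)
    refine Finset.sum_pos' (fun q _ => hκ0 z q) ⟨q, hq, ?_⟩
    rw [hκ]
    exact lt_max_of_lt_right (sub_pos.2 hzq)
  refine ⟨t, fun z => ∑ q ∈ t, (κ z q / ∑ q ∈ t, κ z q) • q, ?_, ?_, ?_⟩
  · refine continuousOn_finsetSum _ fun q _ => ?_
    refine ContinuousOn.smul ?_ continuousOn_const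
    exact (hκc q).continuousOn.div (continuous_finsetSum _ fun q _ => hκc q).continuousOn
      fun z hz => (hS z hz).ne'
  · intro x
    exact Submodule.sum_mem _ fun q hq => Submodule.smul_mem _ _ (Submodule.subset_span hq)
  · intro z hz
    have hpos := hS z hz
    have hone : ∑ q ∈ t, κ z q / ∑ q ∈ t, κ z q = 1 := by
      rw [← Finset.sum_div, div_self hpos.ne']
    have e1 : ∑ q ∈ t, (κ z q / ∑ q ∈ t, κ z q) • q - z =
        ∑ q ∈ t, (κ z q / ∑ q ∈ t, κ z q) • (q - z) := by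
      simp only [smul_sub, Finset.sum_sub_distrib, ← Finset.sum_smul, hone, one_smul]
    show ‖∑ q ∈ t, (κ z q / ∑ q ∈ t, κ z q) • q - z‖ ≤ ε
    rw [e1]
    calc ‖∑ q ∈ t, (κ z q / ∑ q ∈ t, κ z q) • (q - z)‖
        ≤ ∑ q ∈ t, ‖(κ z q / ∑ q ∈ t, κ z q) • (q - z)‖ := norm_sum_le _ _
      _ ≤ ∑ q ∈ t, κ z q / (∑ q ∈ t, κ z q) * ε := by
        refine Finset.sum_le_sum fun q _ => ?_
        have h0 : 0 ≤ κ z q / ∑ q ∈ t, κ z q := div_nonneg (hκ0 _ _) hpos.le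
        rw [norm_smul, Real.norm_of_nonneg h0]
        by_cases h1 : κ z q = 0
        · rw [h1, zero_div, zero_mul, zero_mul]
        · have h3 : dist z q < ε := by
            by_contra hcon
            apply h1
            rw [hκ]
            exact max_eq_left (by linarith [not_lt.1 hcon])
          rw [dist_comm, dist_eq_norm] at h3
          exact mul_le_mul_of_nonneg_left h3.le h0
      _ = ε := by rw [← Finset.sum_mul, hone, one_mul]

/-- approximate zeros -/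
theorem approx {E : Type} [NormedAddCommGroup E] [NormedSpace ℝ E] {β : ℝ × E → ℝ}
    {T : ℝ × E → E} (hβ : ContinuousOn β (Dm ℝ E)) (hT : Cmp (Dm ℝ E) T)
    (hT0 : ∀ z ∈ Bd ℝ E, T z = 0) (h1 : ∀ h : E, ‖h‖ ≤ 1 → 0 < β (1, h))
    (h2 : ∀ h : E, ‖h‖ ≤ 1 → β (-1, h) < 0) {ε : ℝ} (hε : 0 < ε) :
    ∃ z ∈ Dm ℝ E, β z = 0 ∧ ‖z.2 - T z‖ ≤ ε := by
  obtain ⟨hTc, K, hK, hTK⟩ := hT
  have h0K : (0 : E) ∈ K := by
    have e1 : ((1 : ℝ), (0 : E)) ∈ Bd ℝ E := ⟨by simp, by simp, Or.inl (by simp)⟩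
    have e2 : ((1 : ℝ), (0 : E)) ∈ Dm ℝ E := ⟨by simp, by simp⟩
    rw [← hT0 _ e1]
    exact hTK _ e2
  obtain ⟨t, p, hpc, hpV, hpK⟩ := proj hK (half_pos hε)
  have hVf : FiniteDimensional ℝ (Submodule.span ℝ (t : Set E)) :=
    FiniteDimensional.span_finset ℝ t
  have hVp : ProperSpace (Submodule.span ℝ (t : Set E)) := FiniteDimensional.proper_real _
  obtain ⟨V, hV⟩ : ∃ V : Submodule ℝ E, V = Submodule.span ℝ (t : Set E) := ⟨_, rfl⟩
  rw [← hV] at hVf hVp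
  have hC1 : IsCompact {h : E | h ∈ V ∧ ‖h‖ ≤ 1} := by
    have e1 : {h : E | h ∈ V ∧ ‖h‖ ≤ 1} = (fun v : V => (v : E)) '' closedBall (0 : V) 1 := by
      ext h
      constructor
      · rintro ⟨a, b⟩
        exact ⟨⟨h, a⟩, by simpa using b, rfl⟩
      · rintro ⟨v, hv, rfl⟩
        exact ⟨v.2, by simpa using hv⟩
    rw [e1]
    exact (isCompact_closedBall (0 : V) 1).image continuous_subtype_val
  obtain ⟨C, hC⟩ : ∃ C : Set (ℝ × E), C = Icc (-1 : ℝ) 1 ×ˢ {h : E | h ∈ V ∧ ‖h‖ ≤ 1} :=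
    ⟨_, rfl⟩
  have hCc : IsCompact C := by
    rw [hC]
    exact isCompact_Icc.prod hC1
  have hCv : Convex ℝ C := by
    rw [hC]
    refine (convex_Icc _ _).prod ?_
    have e1 : {h : E | h ∈ V ∧ ‖h‖ ≤ 1} = (V : Set E) ∩ closedBall 0 1 := by
      ext h
      simp
    rw [e1]
    exact V.convex.inter (convex_closedBall _ _)
  have hCD : C ⊆ Dm ℝ E := by
    rw [hC]
    rintro ⟨z, h⟩ ⟨hz, hh⟩
    exact ⟨abs_le.2 hz, hh.2⟩
  have hne : C.Nonempty := by
    rw [hC]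
    exact ⟨(0, 0), ⟨by norm_num, by norm_num⟩, V.zero_mem, by simp⟩
  obtain ⟨w, hw⟩ : ∃ w : ℝ × E → E, ∀ x, w x = p (T x) - p 0 := ⟨_, fun _ => rfl⟩
  have hwc : ContinuousOn w C := by
    have e1 : w = fun x => p (T x) - p 0 := funext hw
    rw [e1]
    exact (hpc.comp (hTc.mono hCD) fun x hx => hTK x (hCD hx)).sub continuousOn_const
  have hwV : ∀ x, w x ∈ V := by
    intro x
    rw [hw, hV]
    exact Submodule.sub_mem _ (hpV _) (hpV _)
  have hm0 : ∀ x, 0 < max 1 ‖w x‖ := fun x => lt_max_of_lt_left one_pos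
  obtain ⟨x, hx, hfx⟩ := Pool.Agent.Common_Brouwer.schauder hCc hCv hne
    (f := fun x => (max (-1) (min 1 (x.1 - β x)), (max 1 ‖w x‖)⁻¹ • w x)) (by
      refine ContinuousOn.prodMk ?_ ?_
      · have hφ : Continuous fun y : ℝ => max (-1) (min 1 y) :=
          continuous_const.max (continuous_const.min continuous_id)
        exact hφ.comp_continuousOn (continuous_fst.continuousOn.sub (hβ.mono hCD))
      · refine ContinuousOn.smul ?_ hwc
        have hφ : Continuous fun y : ℝ => max 1 y := continuous_const.max continuous_id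
        exact (hφ.comp_continuousOn hwc.norm).inv₀ fun x _ => (hm0 x).ne') (by
      intro x _
      rw [hC]
      refine ⟨⟨le_max_left _ _, max_le (by norm_num) (min_le_left _ _)⟩,
        V.smul_mem _ (hwV x), ?_⟩
      show ‖(max 1 ‖w x‖)⁻¹ • w x‖ ≤ 1
      rw [norm_smul, norm_inv, Real.norm_of_nonneg (hm0 x).le, inv_mul_le_iff₀ (hm0 x), mul_one]
      exact le_max_right _ _)
  have hxD := hCD hx
  have hx1 : max (-1) (min 1 (x.1 - β x)) = x.1 := congrArg Prod.fst hfx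
  have hx2 : (max 1 ‖w x‖)⁻¹ • w x = x.2 := congrArg Prod.snd hfx
  -- the second component
  have hww : ‖w x‖ ≤ 1 := by
    by_contra hcon
    have hc1 : 1 < ‖w x‖ := not_le.1 hcon
    have e1 : ‖x.2‖ = 1 := by
      rw [← hx2, norm_smul, norm_inv, Real.norm_of_nonneg (hm0 x).le, max_eq_right hc1.le]
      exact inv_mul_cancel₀ (by linarith)
    have e2 : x ∈ Bd ℝ E := ⟨hxD.1, hxD.2, Or.inr e1⟩
    have e3 : w x = 0 := by
      rw [hw, hT0 x e2, sub_self]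
    rw [e3, norm_zero] at hc1
    linarith
  have hwx : w x = x.2 := by
    rw [max_eq_left hww, inv_one, one_smul] at hx2
    exact hx2
  have hsmall : ‖x.2 - T x‖ ≤ ε := by
    rw [← hwx, hw]
    have e1 : p (T x) - p 0 - T x = (p (T x) - T x) - (p 0 - 0) := by abel
    rw [e1]
    have e2 := hpK _ (hTK x hxD)
    have e3 := hpK _ h0K
    exact (norm_sub_le _ _).trans (by linarith)
  refine ⟨x, hxD, ?_, hsmall⟩
  have hxeq : x = (x.1, x.2) := rfl
  have hlt : x.1 < 1 := by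
    by_contra hcon
    have e1 : x.1 = 1 := le_antisymm (abs_le.1 hxD.1).2 (not_lt.1 hcon)
    have e2 := h1 x.2 hxD.2
    rw [← e1, ← hxeq] at e2
    have e3 : max (-1) (min 1 (x.1 - β x)) < 1 :=
      max_lt (by norm_num) (min_lt_of_right_lt (by linarith))
    rw [hx1] at e3
    linarith
  have hgt : -1 < x.1 := by
    by_contra hcon
    have e1 : x.1 = -1 := le_antisymm (not_lt.1 hcon) (abs_le.1 hxD.1).1
    have e2 := h2 x.2 hxD.2
    rw [← e1, ← hxeq] at e2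
    have e3 : -1 < max (-1) (min 1 (x.1 - β x)) :=
      lt_max_of_lt_right (lt_min (by norm_num) (by linarith))
    rw [hx1] at e3
    linarith
  rcases le_total 1 (x.1 - β x) with h3 | h3
  · rw [min_eq_left h3, max_eq_right (by norm_num)] at hx1
    linarith
  · rw [min_eq_right h3] at hx1
    rcases le_total (-1) (x.1 - β x) with h4 | h4
    · rw [max_eq_right h4] at hx1
      linarith
    · rw [max_eq_left h4] at hx1
      linarith

theorem isClosed_Dm (E : Type) [NormedAddCommGroup E] : IsClosed (Dm ℝ E) := by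
  have e1 : Dm ℝ E = {z : ℝ × E | ‖z.1‖ ≤ 1} ∩ {z : ℝ × E | ‖z.2‖ ≤ 1} := rfl
  rw [e1]
  exact (isClosed_le continuous_fst.norm continuous_const).inter
    (isClosed_le continuous_snd.norm continuous_const)

theorem zero_ex {E : Type} [NormedAddCommGroup E] [NormedSpace ℝ E] {β : ℝ × E → ℝ}
    {T : ℝ × E → E} (hβ : ContinuousOn β (Dm ℝ E)) (hT : Cmp (Dm ℝ E) T)
    (hT0 : ∀ z ∈ Bd ℝ E, T z = 0) (h1 : ∀ h : E, ‖h‖ ≤ 1 → 0 < β (1, h))
    (h2 : ∀ h : E, ‖h‖ ≤ 1 → β (-1, h) < 0) :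
    ∃ z ∈ Dm ℝ E, β z = 0 ∧ z.2 = T z := by
  have hex : ∀ n : ℕ, ∃ z ∈ Dm ℝ E, β z = 0 ∧ ‖z.2 - T z‖ ≤ 1 / ((n : ℝ) + 1) :=
    fun n => approx hβ hT hT0 h1 h2 (by positivity)
  choose u huD huβ huT using hex
  obtain ⟨hTc, K, hK, hTK⟩ := hT
  obtain ⟨⟨a, k⟩, -, φ, hφ, hlim⟩ := (isCompact_Icc.prod hK).tendsto_subseq
    (x := fun n => ((u n).1, T (u n))) (fun n => ⟨abs_le.1 (huD n).1, hTK _ (huD n)⟩)
  have l1 : Tendsto (fun n => (u (φ n)).1) atTop (𝓝 a) :=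
    (continuous_fst.tendsto _).comp hlim
  have l2 : Tendsto (fun n => T (u (φ n))) atTop (𝓝 k) :=
    (continuous_snd.tendsto _).comp hlim
  have l3 : Tendsto (fun n => (u (φ n)).2 - T (u (φ n))) atTop (𝓝 0) := by
    refine squeeze_zero_norm (fun n => huT (φ n)) ?_
    exact tendsto_one_div_add_atTop_nhds_zero_nat.comp hφ.tendsto_atTop
  have l4 : Tendsto (fun n => (u (φ n)).2) atTop (𝓝 k) := by
    have e1 := l3.add l2
    simp only [sub_add_cancel, zero_add] at e1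
    exact e1
  have l5 : Tendsto (fun n => u (φ n)) atTop (𝓝 (a, k)) := l1.prodMk_nhds l4
  have hD : (a, k) ∈ Dm ℝ E :=
    (isClosed_Dm E).mem_of_tendsto l5 (Eventually.of_forall fun n => huD (φ n))
  have l6 : Tendsto (fun n => u (φ n)) atTop (𝓝[Dm ℝ E] (a, k)) :=
    tendsto_nhdsWithin_iff.2 ⟨l5, Eventually.of_forall fun n => huD (φ n)⟩
  refine ⟨(a, k), hD, ?_, ?_⟩
  · have e1 : Tendsto (fun n => β (u (φ n))) atTop (𝓝 (β (a, k))) := (hβ (a, k) hD).tendsto.comp l6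
    simp only [huβ] at e1
    exact tendsto_nhds_unique e1 tendsto_const_nhds |>.symm ▸ rfl
  · have e1 : Tendsto (fun n => T (u (φ n))) atTop (𝓝 (T (a, k))) :=
      (hTc (a, k) hD).tendsto.comp l6
    exact tendsto_nhds_unique l2 e1

theorem es1 : Es1Stmt := by
  intro E _ _ b hb hbb hI
  obtain ⟨β, T, hβ, hT, hbd, hno⟩ := hI
  have hm1 : ∀ h : E, ‖h‖ ≤ 1 → ((1 : ℝ), h) ∈ Bd ℝ E := fun h hh =>
    ⟨by simp, hh, Or.inl (by simp)⟩
  have hm2 : ∀ h : E, ‖h‖ ≤ 1 → ((-1 : ℝ), h) ∈ Bd ℝ E := fun h hh =>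
    ⟨by simp, hh, Or.inl (by simp)⟩
  have hT0 : ∀ z ∈ Bd ℝ E, T z = 0 := fun z hz => (hbd z hz).2
  rcases mul_neg_iff.1 hbb with ⟨p1, p2⟩ | ⟨p1, p2⟩
  · obtain ⟨z, hz, hz1, hz2⟩ := zero_ex hβ hT hT0
      (fun h hh => by rw [(hbd _ (hm1 h hh)).1]; exact p1)
      (fun h hh => by rw [(hbd _ (hm2 h hh)).1]; exact p2)
    exact hno z hz ⟨hz1, hz2⟩
  · obtain ⟨z, hz, hz1, hz2⟩ := zero_ex (β := fun z => -β z) hβ.neg hT hT0
      (fun h hh => by rw [(hbd _ (hm1 h hh)).1]; exact neg_pos.2 p1)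
      (fun h hh => by rw [(hbd _ (hm2 h hh)).1]; exact neg_neg_iff_pos.2 p2)
    exact hno z hz ⟨neg_eq_zero.1 hz1, hz2⟩

end Pool.Agent.PQP.H62
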