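import Pool.Agent.PQP.StmtsE
import Pool.Agent.Helper54_FLX.All

/-! Squad PQP, block EX, row LPE (helper62): existence for large powers. -/

set_option autoImplicit false

open scoped InnerProductSpace Topology ContDiff Manifold
open MeasureTheory Filter Set

noncomputable section

namespace Pool.Agent.PQP.H62

open Pool.Agent.Helper42_Paneitz Pool.Agent.Helper82_Vir Pool.Agent.FLX Pool.Agent.PQP

/-! ### real analysis -/

theorem ev_exp (A D : ℝ) {a b : ℝ} (n : ℕ) (hab : a < b) (hb : 0 < b) :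
    ∀ᶠ t : ℝ in atTop, A * t ^ n * Real.exp (a * t) + D ≤ Real.exp (b * t) := by
  have h1 : ∀ᶠ t : ℝ in atTop, ‖t ^ n‖ ≤ 1 / (2 * (|A| + 1)) * ‖Real.exp ((b - a) * t)‖ :=
    (isLittleO_pow_exp_pos_mul_atTop (k := n) (sub_pos.2 hab)).def (by positivity)
  have h2 : ∀ᶠ t : ℝ in atTop, 2 * D ≤ Real.exp (b * t) :=
    (Real.tendsto_exp_atTop.comp (tendsto_id.const_mul_atTop hb)).eventually_ge_atTop _
  filter_upwards [h1, h2] with t ht1 ht2
  rw [Real.norm_eq_abs, Real.norm_of_nonneg (Real.exp_pos _).le] at ht1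
  have e1 : Real.exp (b * t) = Real.exp ((b - a) * t) * Real.exp (a * t) := by
    rw [← Real.exp_add]
    congr 1
    ring
  have hE : 0 < Real.exp (a * t) := Real.exp_pos _
  have hE' : 0 < Real.exp ((b - a) * t) := Real.exp_pos _
  have h3 : A * t ^ n ≤ 1 / 2 * Real.exp ((b - a) * t) := by
    calc A * t ^ n ≤ |A * t ^ n| := le_abs_self _
      _ = |A| * |t ^ n| := abs_mul _ _
      _ ≤ |A| * (1 / (2 * (|A| + 1)) * Real.exp ((b - a) * t)) := by gcongr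
      _ = |A| / (|A| + 1) * (1 / 2 * Real.exp ((b - a) * t)) := by
          have : |A| + 1 ≠ 0 := by positivity
          field_simp
      _ ≤ 1 * (1 / 2 * Real.exp ((b - a) * t)) := by
          have h4 : |A| / (|A| + 1) ≤ 1 := by
            rw [div_le_one (by positivity)]
            linarith
          gcongr
      _ = _ := one_mul _
  have h4 : A * t ^ n * Real.exp (a * t) ≤ 1 / 2 * Real.exp (b * t) := by
    rw [e1]
    calc A * t ^ n * Real.exp (a * t) ≤ 1 / 2 * Real.exp ((b - a) * t) * Real.exp (a * t) := by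
          gcongr
      _ = _ := by ring
  linarith

theorem exp_rem (x : ℝ) : |Real.exp x - 1 - x| ≤ x ^ 2 * Real.exp |x| := by
  have h0 : 0 ≤ Real.exp x - 1 - x := by linarith [Real.add_one_le_exp x]
  rw [abs_of_nonneg h0]
  have h1 : Real.exp x - 1 ≤ x * Real.exp x := by
    have h2 := Real.add_one_le_exp (-x)
    have h3 : Real.exp x * (-x + 1) ≤ Real.exp x * Real.exp (-x) :=
      mul_le_mul_of_nonneg_left h2 (Real.exp_pos x).le
    rw [← Real.exp_add, add_neg_cancel, Real.exp_zero] at h3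
    linarith
  rcases le_or_gt 0 x with hx | hx
  · rw [abs_of_nonneg hx]
    nlinarith [mul_le_mul_of_nonneg_left h1 hx, Real.exp_pos x]
  · have h2 : 1 - Real.exp x ≤ -x := by linarith [Real.add_one_le_exp x]
    have h3 : Real.exp x - 1 - x ≤ x ^ 2 := by nlinarith
    have h4 : 1 ≤ Real.exp |x| := Real.one_le_exp (abs_nonneg x)
    nlinarith [sq_nonneg x]

/-- the expansion near the point -/
theorem near_ineq {t D τ r C C₁ ρ : ℝ} (ht : 0 ≤ t) (hr : 0 ≤ r) (hr1 : r ≤ 1) (hrρ : r ≤ ρ)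
    (hC : 0 ≤ C) (h1 : |D - 1 / 2 * τ| ≤ C₁ * r ^ 3) (h2 : |D| ≤ C * r ^ 2) :
    |6 * (Real.exp (-(t * D)) - 1) + 3 * t * τ| ≤
      (6 * C₁ * t + 6 * C ^ 2 * t ^ 2 * Real.exp (C * ρ ^ 2 * t)) * r ^ 3 := by
  have e1 : 6 * (Real.exp (-(t * D)) - 1) + 3 * t * τ =
      6 * (Real.exp (-(t * D)) - 1 - -(t * D)) + -(6 * t * (D - 1 / 2 * τ)) := by ring
  rw [e1]
  have h3 := exp_rem (-(t * D))
  rw [abs_neg] at h3
  have h4 : |t * D| ≤ C * ρ ^ 2 * t := by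
    rw [abs_mul, abs_of_nonneg ht]
    have : r ^ 2 ≤ ρ ^ 2 := pow_le_pow_left₀ hr hrρ 2
    calc t * |D| ≤ t * (C * r ^ 2) := by gcongr
      _ ≤ t * (C * ρ ^ 2) := by gcongr
      _ = _ := by ring
  have h5 : (-(t * D)) ^ 2 ≤ C ^ 2 * t ^ 2 * r ^ 3 := by
    have e2 : (-(t * D)) ^ 2 = t ^ 2 * |D| ^ 2 := by rw [sq_abs]; ring
    rw [e2]
    have h6 : |D| ^ 2 ≤ (C * r ^ 2) ^ 2 := pow_le_pow_left₀ (abs_nonneg _) h2 2
    have h7 : r ^ 4 ≤ r ^ 3 := pow_le_pow_of_le_one hr hr1 (by norm_num)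
    calc t ^ 2 * |D| ^ 2 ≤ t ^ 2 * (C * r ^ 2) ^ 2 := by gcongr
      _ = C ^ 2 * t ^ 2 * r ^ 4 := by ring
      _ ≤ C ^ 2 * t ^ 2 * r ^ 3 := by gcongr
  have h6 : |6 * (Real.exp (-(t * D)) - 1 - -(t * D))| ≤
      6 * (C ^ 2 * t ^ 2 * r ^ 3 * Real.exp (C * ρ ^ 2 * t)) := by
    rw [abs_mul, abs_of_pos (by norm_num : (0 : ℝ) < 6)]
    refine mul_le_mul_of_nonneg_left (h3.trans ?_) (by norm_num)
    gcongr
  have h7 : |-(6 * t * (D - 1 / 2 * τ))| ≤ 6 * t * (C₁ * r ^ 3) := by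
    rw [abs_neg, abs_mul, abs_of_nonneg (by positivity : 0 ≤ 6 * t)]
    gcongr
  refine (abs_add_le _ _).trans ((add_le_add h6 h7).trans (le_of_eq ?_))
  ring

/-! ### geometry -/

theorem one_sub_inner (p z : S4) : 1 - ⟪(p : E5), (z : E5)⟫_ℝ = ‖(z : E5) - (p : E5)‖ ^ 2 / 2 := by
  have h := norm_sub_sq_real (z : E5) (p : E5)
  rw [S4_norm, S4_norm, real_inner_comm] at h
  rw [h]
  ring

theorem one_sub_inner_le (p z : S4) : 1 - ⟪(p : E5), (z : E5)⟫_ℝ ≤ 2 := by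
  have h := abs_real_inner_le_norm (p : E5) (z : E5)
  rw [S4_norm, S4_norm, mul_one] at h
  linarith [(abs_le.1 h).1]

theorem quad_le {p : S4} {T : E5 →L[ℝ] E5} (hs : ∀ u v : E5, ⟪T u, v⟫_ℝ = ⟪u, T v⟫_ℝ)
    (hz : T (p : E5) = 0) (z : S4) :
    |⟪T (z : E5), (z : E5)⟫_ℝ| ≤ ‖T‖ * ‖(z : E5) - (p : E5)‖ ^ 2 := by
  have e1 : T (z : E5) = T ((z : E5) - (p : E5)) := by rw [map_sub, hz, sub_zero]
  have e2 : ⟪T ((z : E5) - (p : E5)), (p : E5)⟫_ℝ = 0 := by rw [hs, hz, inner_zero_right]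
  have e3 : ⟪T (z : E5), (z : E5)⟫_ℝ = ⟪T ((z : E5) - (p : E5)), (z : E5) - (p : E5)⟫_ℝ := by
    rw [inner_sub_right, e2, sub_zero, e1]
  rw [e3]
  calc |⟪T ((z : E5) - (p : E5)), (z : E5) - (p : E5)⟫_ℝ|
      ≤ ‖T ((z : E5) - (p : E5))‖ * ‖(z : E5) - (p : E5)‖ := abs_real_inner_le_norm _ _
    _ ≤ ‖T‖ * ‖(z : E5) - (p : E5)‖ * ‖(z : E5) - (p : E5)‖ := by
        gcongr
        exact T.le_opNorm _
    _ = _ := by ring

/-- the far region -/
def Fa (p : S4) (ρ : ℝ) : Set S4 := {z : S4 | ρ ≤ ‖(z : E5) - (p : E5)‖}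

theorem isClosed_Fa (p : S4) (ρ : ℝ) : IsClosed (Fa p ρ) :=
  isClosed_le continuous_const (continuous_subtype_val.sub continuous_const).norm

/-- lower bound of the far integral -/
theorem GG_ge {p : S4} {ρ a₁ : ℝ} {q : S4 → ℝ} {V : Set S4} (hρ : 0 < ρ) (hq : Continuous q)
    (hV : MeasurableSet V) (hVF : V ⊆ Fa p ρ) (hq6 : ∀ z, -6 ≤ q z) (ha : 0 ≤ a₁)
    (hqV : ∀ z ∈ V, a₁ ≤ q z) :
    a₁ / 16 * sig.real V - 96 / ρ ^ 8 * msig ≤ GG p ρ q := by
  have hF : MeasurableSet (Fa p ρ) := (isClosed_Fa p ρ).measurableSet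
  have hden : ∀ z ∈ Fa p ρ, ρ ^ 8 / 16 ≤ (1 - ⟪(p : E5), (z : E5)⟫_ℝ) ^ 4 := by
    intro z hz
    rw [one_sub_inner]
    have h1 : ρ ≤ ‖(z : E5) - (p : E5)‖ := hz
    have h2 : ρ ^ 2 / 2 ≤ ‖(z : E5) - (p : E5)‖ ^ 2 / 2 := by
      have := pow_le_pow_left₀ hρ.le h1 2
      linarith
    have h3 : (ρ ^ 2 / 2) ^ 4 ≤ (‖(z : E5) - (p : E5)‖ ^ 2 / 2) ^ 4 :=
      pow_le_pow_left₀ (by positivity) h2 4
    calc ρ ^ 8 / 16 = (ρ ^ 2 / 2) ^ 4 := by ring
      _ ≤ _ := h3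
  have hdenpos : ∀ z ∈ Fa p ρ, 0 < (1 - ⟪(p : E5), (z : E5)⟫_ℝ) ^ 4 := fun z hz =>
    lt_of_lt_of_le (by positivity) (hden z hz)
  have hden16 : ∀ z ∈ Fa p ρ, (1 - ⟪(p : E5), (z : E5)⟫_ℝ) ^ 4 ≤ 16 := by
    intro z _
    have h1 := one_sub_inner_le p z
    have h0 : 0 ≤ 1 - ⟪(p : E5), (z : E5)⟫_ℝ := by rw [one_sub_inner]; positivity
    calc (1 - ⟪(p : E5), (z : E5)⟫_ℝ) ^ 4 ≤ 2 ^ 4 := pow_le_pow_left₀ h0 h1 4
      _ = 16 := by norm_num
  have hint : IntegrableOn (fun z : S4 => q z / (1 - ⟪(p : E5), (z : E5)⟫_ℝ) ^ 4) (Fa p ρ) sig := by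
    refine ContinuousOn.integrableOn_compact (isClosed_Fa p ρ).isCompact ?_
    refine hq.continuousOn.div ?_ fun z hz => (hdenpos z hz).ne'
    have h1 : Continuous fun z : S4 => (1 - ⟪(p : E5), (z : E5)⟫_ℝ) ^ 4 := by fun_prop
    exact h1.continuousOn
  have hint2 : IntegrableOn (fun z : S4 => V.indicator (fun _ => a₁ / 16) z - 96 / ρ ^ 8)
      (Fa p ρ) sig := by
    refine Integrable.sub ?_ (integrable_const _)
    exact (integrable_const _).indicator hV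
  have hpt : ∀ z ∈ Fa p ρ, V.indicator (fun _ => a₁ / 16) z - 96 / ρ ^ 8 ≤
      q z / (1 - ⟪(p : E5), (z : E5)⟫_ℝ) ^ 4 := by
    intro z hz
    have hp := hdenpos z hz
    by_cases hzV : z ∈ V
    · rw [indicator_of_mem hzV]
      have h1 : a₁ / 16 ≤ q z / (1 - ⟪(p : E5), (z : E5)⟫_ℝ) ^ 4 := by
        rw [div_le_div_iff₀ (by norm_num) hp]
        have h2 := hqV z hzV
        have h3 := hden16 z hz
        calc a₁ * (1 - ⟪(p : E5), (z : E5)⟫_ℝ) ^ 4 ≤ a₁ * 16 := by gcongr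
          _ ≤ q z * 16 := by linarith
      have h2 : 0 ≤ 96 / ρ ^ 8 := by positivity
      linarith
    · rw [indicator_of_notMem hzV, zero_sub, le_div_iff₀ hp]
      have h1 := hden z hz
      have h2 := hq6 z
      have h3 : 6 ≤ 96 / ρ ^ 8 * (1 - ⟪(p : E5), (z : E5)⟫_ℝ) ^ 4 := by
        calc (6 : ℝ) = 96 / ρ ^ 8 * (ρ ^ 8 / 16) := by
              have : ρ ^ 8 ≠ 0 := by positivity
              field_simp
              norm_num
          _ ≤ _ := by gcongr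
      linarith
  have h1 : ∫ z in Fa p ρ, (V.indicator (fun _ => a₁ / 16) z - 96 / ρ ^ 8) ∂sig ≤ GG p ρ q := by
    unfold GG
    exact setIntegral_mono_on hint2 hint hF hpt
  refine le_trans ?_ h1
  rw [integral_sub ((integrable_const _).indicator hV) (integrable_const _),
    integral_indicator hV, Measure.restrict_restrict hV, inter_eq_left.2 hVF,
    setIntegral_const, setIntegral_const, smul_eq_mul, smul_eq_mul]
  have h2 : sig.real (Fa p ρ) ≤ msig := measureReal_mono (subset_univ _)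
  have h3 : 0 ≤ 96 / ρ ^ 8 := by positivity
  have h4 : sig.real (Fa p ρ) * (96 / ρ ^ 8) ≤ 96 / ρ ^ 8 * msig := by
    rw [mul_comm]
    gcongr
  linarith

/-! ### the row -/

theorem lpe (hExa : ExaStmt) (hTa3 : Ta3Stmt) : LpeStmt := by
  intro ψ p x₀ δ hψ hnd hlap hx₀ hδ
  obtain ⟨T, C₁, hC₁, hsym, hTp, hinj, htr, htay⟩ := hTa3 ψ p hψ hnd
  have hψc : Continuous ψ := continuous_of_sm hψ
  obtain ⟨x₁, -, hx₁⟩ := isCompact_univ.exists_isMinOn ⟨x₀, mem_univ x₀⟩ hψc.continuousOn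
  have hmin : ∀ z, ψ x₁ ≤ ψ z := fun z => isMinOn_iff.1 hx₁ z (mem_univ z)
  obtain ⟨ε, hε⟩ : ∃ ε, ε = ψ p - ψ x₁ := ⟨_, rfl⟩
  have hε0 : 0 < ε := by
    have := hmin x₀
    linarith
  obtain ⟨C, hC⟩ : ∃ C, C = 1 / 2 * ‖T‖ + C₁ := ⟨_, rfl⟩
  have hC0 : 0 ≤ C := by rw [hC]; positivity
  -- the quadratic bound
  have hquad : ∀ z : S4, ‖(z : E5) - (p : E5)‖ ≤ 1 →
      |ψ z - ψ p| ≤ C * ‖(z : E5) - (p : E5)‖ ^ 2 := by
    intro z hz
    have h1 := htay z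
    have h2 := quad_le hsym hTp z
    have h3 : ‖(z : E5) - (p : E5)‖ ^ 3 ≤ ‖(z : E5) - (p : E5)‖ ^ 2 :=
      pow_le_pow_of_le_one (norm_nonneg _) hz (by norm_num)
    have e1 : ψ z - ψ p = (ψ z - ψ p - 1 / 2 * ⟪T (z : E5), (z : E5)⟫_ℝ) +
        1 / 2 * ⟪T (z : E5), (z : E5)⟫_ℝ := by ring
    rw [e1]
    refine (abs_add_le _ _).trans ?_
    rw [abs_mul, abs_of_pos (by norm_num : (0 : ℝ) < 1 / 2)]
    calc |ψ z - ψ p - 1 / 2 * ⟪T (z : E5), (z : E5)⟫_ℝ| + 1 / 2 * |⟪T (z : E5), (z : E5)⟫_ℝ|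
        ≤ C₁ * ‖(z : E5) - (p : E5)‖ ^ 2 + 1 / 2 * (‖T‖ * ‖(z : E5) - (p : E5)‖ ^ 2) := by
          have h4 : C₁ * ‖(z : E5) - (p : E5)‖ ^ 3 ≤ C₁ * ‖(z : E5) - (p : E5)‖ ^ 2 := by gcongr
          linarith
      _ = C * ‖(z : E5) - (p : E5)‖ ^ 2 := by rw [hC]; ring
  -- the radius
  obtain ⟨ρ, hρe⟩ : ∃ ρ, ρ = min (min 1 δ) (√(ε / (1000 * (C + 1)))) := ⟨_, rfl⟩
  have hρ0 : 0 < ρ := by
    rw [hρe]
    exact lt_min (lt_min one_pos hδ) (Real.sqrt_pos.2 (by positivity))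
  have hρ1 : ρ ≤ 1 := by rw [hρe]; exact (min_le_left _ _).trans (min_le_left _ _)
  have hρδ : ρ ≤ δ := by rw [hρe]; exact (min_le_left _ _).trans (min_le_right _ _)
  have hCρ : C * ρ ^ 2 ≤ ε / 1000 := by
    have h1 : ρ ≤ √(ε / (1000 * (C + 1))) := by rw [hρe]; exact min_le_right _ _
    have h2 : ρ ^ 2 ≤ ε / (1000 * (C + 1)) := by
      have h3 := pow_le_pow_left₀ hρ0.le h1 2
      rwa [Real.sq_sqrt (by positivity)] at h3
    calc C * ρ ^ 2 ≤ (C + 1) * (ε / (1000 * (C + 1))) := by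
          gcongr
          linarith
      _ = ε / 1000 := by
          have : C + 1 ≠ 0 := by positivity
          field_simp
  have hgeo : Geo p T ρ := ⟨hρ0, hρ1, hsym, hTp, hinj⟩
  have htr0 : tr5 T ≠ 0 := by rw [htr]; exact hlap.ne'
  obtain ⟨s₀, hs₀, hexa⟩ := hExa p T ρ hgeo htr0
  -- the set where `ψ` is small
  obtain ⟨V, hVe⟩ : ∃ V : Set S4, V = {z | ψ z < ψ x₁ + ε / 1000} := ⟨_, rfl⟩
  have hVo : IsOpen V := by rw [hVe]; exact isOpen_lt hψc continuous_const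
  have hVne : V.Nonempty := ⟨x₁, by rw [hVe]; show ψ x₁ < ψ x₁ + ε / 1000; linarith⟩
  have hVF : V ⊆ Fa p ρ := by
    intro z hz
    rw [hVe] at hz
    by_contra hcon
    have h1 : ‖(z : E5) - (p : E5)‖ < ρ := not_le.1 hcon
    have h2 := hquad z (h1.le.trans hρ1)
    have h3 : C * ‖(z : E5) - (p : E5)‖ ^ 2 ≤ C * ρ ^ 2 := by gcongr
    have h4 := (abs_le.1 (h2.trans (h3.trans hCρ))).1
    have h5 : ψ z < ψ x₁ + ε / 1000 := hz
    linarith
  have hv : 0 < sig.real V :=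
    ENNReal.toReal_pos (hVo.measure_pos sig hVne).ne' (measure_ne_top _ _)
  obtain ⟨v, hve⟩ : ∃ v, v = sig.real V := ⟨_, rfl⟩
  rw [← hve] at hv
  have hm := msig_pos
  -- asymptotics
  have E1 := ev_exp (16 / (6 * v)) (1 + 16 * (96 / ρ ^ 8 * msig) / (6 * v)) (a := 99 / 100 * ε)
    (b := 999 / 1000 * ε) 0 (by linarith) (by linarith)
  have E2 := ev_exp 3 0 (a := 96 / 100 * ε) (b := 99 / 100 * ε) 1 (by linarith) (by linarith)
  have E3 := ev_exp 0 (1 / s₀ ^ 2) (a := 0) (b := 96 / 100 * ε) 0 (by linarith) (by linarith)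
  have E4 := ev_exp 3 0 (a := 0) (b := 2 / 100 * ε) 1 (by linarith) (by linarith)
  have E5 := ev_exp (12 * C₁) 0 (a := 0) (b := 2 / 100 * ε) 1 (by linarith) (by linarith)
  have E6 := ev_exp (12 * C ^ 2) 0 (a := 1 / 1000 * ε) (b := 2 / 100 * ε) 2 (by linarith)
    (by linarith)
  have E7 := ev_exp 6 6 (a := ε) (b := 101 / 100 * ε) 0 (by linarith) (by linarith)
  obtain ⟨t₀, ht₀⟩ := eventually_atTop.1
    (E1.and (E2.and (E3.and (E4.and (E5.and (E6.and (E7.and (eventually_ge_atTop 1))))))))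
  refine ⟨t₀, fun t ht => ?_⟩
  obtain ⟨F1, F2, F3, F4, F5, F6, F7, ht1⟩ := ht₀ t ht
  have ht0 : 0 ≤ t := by linarith
  simp only [pow_zero, mul_one, pow_one, add_zero, zero_mul, zero_add, Real.exp_zero] at F1 F2 F3 F4 F5 F6 F7
  -- the curvature function
  obtain ⟨q, hq⟩ : ∃ q : S4 → ℝ, ∀ z, q z = 6 * (Real.exp (-(t * (ψ z - ψ p))) - 1) :=
    ⟨_, fun _ => rfl⟩
  have hqf : q = fun z => 6 * (Real.exp (-(t * (ψ z - ψ p))) - 1) := funext hq
  have hqc : Continuous q := by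
    rw [hqf]
    fun_prop
  obtain ⟨B, hB⟩ : ∃ B, B = 6 * C₁ * t + 6 * C ^ 2 * t ^ 2 * Real.exp (C * ρ ^ 2 * t) :=
    ⟨_, rfl⟩
  obtain ⟨M, hM⟩ : ∃ M, M = 6 * Real.exp (ε * t) + 6 := ⟨_, rfl⟩
  have hcon : Con p T ρ q (3 * t) B M := by
    refine ⟨hqc, by linarith, by rw [hB]; positivity, by rw [hM]; positivity, ?_, ?_⟩
    · intro z hz
      rw [hq, hB]
      exact near_ineq ht0 (norm_nonneg _) (hz.le.trans hρ1) hz.le hC0 (htay z)
        (hquad z (hz.le.trans hρ1))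
    · intro z _
      rw [hq, hM, abs_le]
      have h1 : 0 < Real.exp (-(t * (ψ z - ψ p))) := Real.exp_pos _
      have h2 : Real.exp (-(t * (ψ z - ψ p))) ≤ Real.exp (ε * t) := by
        apply Real.exp_le_exp.2
        have h3 := hmin z
        have h4 : ψ p - ψ z ≤ ε := by linarith
        nlinarith
      constructor <;> nlinarith [Real.exp_pos (ε * t)]
  -- the far integral
  obtain ⟨G, hG⟩ : ∃ G, G = GG p ρ q := ⟨_, rfl⟩
  have hGge : Real.exp (99 / 100 * ε * t) ≤ G := by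
    have h1 := GG_ge (p := p) (ρ := ρ) (a₁ := 6 * (Real.exp (999 / 1000 * ε * t) - 1)) (q := q)
      hρ0 hqc hVo.measurableSet hVF (fun z => by
        rw [hq]
        have := Real.exp_pos (-(t * (ψ z - ψ p)))
        linarith) (by
        have : 1 ≤ Real.exp (999 / 1000 * ε * t) := Real.one_le_exp (by positivity)
        linarith) (fun z hz => by
        rw [hq]
        have h2 : Real.exp (999 / 1000 * ε * t) ≤ Real.exp (-(t * (ψ z - ψ p))) := by
          apply Real.exp_le_exp.2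
          rw [hVe] at hz
          have h3 : ψ z < ψ x₁ + ε / 1000 := hz
          have h4 : 999 / 1000 * ε ≤ ψ p - ψ z := by linarith
          nlinarith
        linarith)
    rw [← hG, ← hve] at h1
    refine le_trans ?_ h1
    have h2 := mul_le_mul_of_nonneg_right F1 (by positivity : 0 ≤ 6 * v / 16)
    have e1 : (16 / (6 * v) * Real.exp (99 / 100 * ε * t) +
        (1 + 16 * (96 / ρ ^ 8 * msig) / (6 * v))) * (6 * v / 16) =
        Real.exp (99 / 100 * ε * t) + 6 * v / 16 + 96 / ρ ^ 8 * msig := by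
      have hv' : v ≠ 0 := hv.ne'
      have hρ' : ρ ≠ 0 := hρ0.ne'
      field_simp
      ring
    rw [e1] at h2
    have e2 : 6 * (Real.exp (999 / 1000 * ε * t) - 1) / 16 * v =
      Real.exp (999 / 1000 * ε * t) * (6 * v / 16) - 6 * v / 16 := by ring
    rw [e2]
    linarith
  have hG0 : 0 < G := lt_of_lt_of_le (Real.exp_pos _) hGge
  have hk0 : 0 < 3 * t := by linarith
  obtain ⟨s, hs⟩ : ∃ s, s = √(3 * t / G) := ⟨_, rfl⟩
  have hs0 : 0 < s := by rw [hs]; exact Real.sqrt_pos.2 (by positivity)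
  have hs2 : s ^ 2 = 3 * t / G := by rw [hs, Real.sq_sqrt (by positivity)]
  have hkey : 3 * t / G ≤ Real.exp (-(96 / 100 * ε * t)) := by
    rw [div_le_iff₀ hG0, Real.exp_neg, ← div_eq_inv_mul, le_div_iff₀ (Real.exp_pos _)]
    exact F2.trans hGge
  have hsexp : s ≤ Real.exp (-(48 / 100 * ε * t)) := by
    apply (pow_le_pow_iff_left₀ hs0.le (Real.exp_pos _).le two_ne_zero).1
    rw [hs2, ← Real.exp_nat_mul]
    refine hkey.trans (le_of_eq ?_)
    congr 1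
    push_cast
    ring
  have hss₀ : s ≤ s₀ := by
    apply (pow_le_pow_iff_left₀ hs0.le hs₀.le two_ne_zero).1
    rw [hs2]
    refine hkey.trans ?_
    rw [Real.exp_neg]
    rw [div_le_iff₀ (by positivity)] at F3
    rw [inv_eq_one_div, div_le_iff₀ (Real.exp_pos _), mul_comm]
    exact F3
  have hpow : Real.exp (2 / 100 * ε * t) ≤ s ^ (-(1 / 24) : ℝ) := by
    have h1 : Real.exp (-(48 / 100 * ε * t)) ^ (-(1 / 24) : ℝ) ≤ s ^ (-(1 / 24) : ℝ) :=
      Real.rpow_le_rpow_of_nonpos hs0 hsexp (by norm_num)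
    rw [← Real.exp_mul] at h1
    refine le_trans (le_of_eq ?_) h1
    congr 1
    ring
  have hBle : B ≤ s ^ (-(1 / 24) : ℝ) := by
    refine le_trans ?_ hpow
    rw [hB]
    have h1 : Real.exp (C * ρ ^ 2 * t) ≤ Real.exp (1 / 1000 * ε * t) := by
      apply Real.exp_le_exp.2
      have : C * ρ ^ 2 ≤ 1 / 1000 * ε := by linarith
      gcongr
    have h2 : 6 * C ^ 2 * t ^ 2 * Real.exp (C * ρ ^ 2 * t) ≤
        6 * C ^ 2 * t ^ 2 * Real.exp (1 / 1000 * ε * t) := by gcongr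
    linarith
  have hMle : M ≤ s ^ (-(1 / 24) : ℝ) * |GG p ρ q| := by
    rw [← hG, abs_of_pos hG0, hM]
    refine F7.trans ?_
    have e1 : Real.exp (101 / 100 * ε * t) =
        Real.exp (2 / 100 * ε * t) * Real.exp (99 / 100 * ε * t) := by
      rw [← Real.exp_add]
      congr 1
      ring
    rw [e1]
    exact mul_le_mul hpow hGge (Real.exp_pos _).le (by positivity)
  obtain ⟨w, hw, hwint⟩ := hexa q (3 * t) B M s hcon hs0 hss₀
    (by rw [← hG, htr]; exact mul_pos hlap hG0)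
    (by rw [← hG, abs_of_pos hG0, hs2]; field_simp)
    (F4.trans hpow) hBle hMle
  -- the solution
  obtain ⟨-, -, -, -, -, -, -, -, hReg, hSlv, -⟩ := Pool.Agent.FLX.H54.rows_all
  obtain ⟨c, hc⟩ : ∃ c, c = 6 * Real.exp (t * ψ p) := ⟨_, rfl⟩
  have hc0 : 0 < c := by rw [hc]; positivity
  have hQ : ∀ z, 6 + q z = c * Real.exp (-(t * ψ z)) := by
    intro z
    rw [hq, hc]
    have e1 : -(t * (ψ z - ψ p)) = t * ψ p + -(t * ψ z) := by ring
    rw [e1, Real.exp_add]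
    ring
  have hQf : (fun x => 6 + q x) = fun x => c * Real.exp (-(t * ψ x)) := funext hQ
  have hQs : Sm fun x => Real.exp (-(t * ψ x)) := by
    have h1 := sm_comp (hψ.smul (-t)) Real.contDiff_exp
    have e1 : (fun x => Real.exp (-t * ψ x)) = fun x => Real.exp (-(t * ψ x)) := by
      funext x
      rw [neg_mul]
    rw [← e1]
    exact h1
  have hsol : Pool.Agent.FLX.H54.Sol (fun x => c * Real.exp (-(t * ψ x))) w := by
    rw [hQf] at hw
    exact Pool.Agent.FLX.H54.finE hReg hSlv (hQs.smul c) hw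
  obtain ⟨hu, hue⟩ := Pool.Agent.FLX.H54.scaleE hc0 hsol
  refine ⟨_, hu, hue, ?_⟩
  have hint : ∀ z : S4, Real.exp (-(t * ψ z)) * Real.exp (4 * (w z + Real.log c / 4)) =
      |6 + q z| * Real.exp (4 * w z) := by
    intro z
    rw [hQ, abs_of_pos (by positivity)]
    have e1 : 4 * (w z + Real.log c / 4) = 4 * w z + Real.log c := by ring
    rw [e1, Real.exp_add, Real.exp_log hc0]
    ring
  simp only [hint]
  refine le_trans ?_ hwint
  have hcont : Continuous fun z => |6 + q z| * Real.exp (4 * w z) := by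
    have : Continuous w := hw.1
    fun_prop
  refine setIntegral_mono_set ?_ ?_ ?_
  · exact hcont.integrable_of_hasCompactSupport (HasCompactSupport.of_compactSpace _) |>.integrableOn
  · exact Eventually.of_forall fun z => by positivity
  · exact (LE.le.eventuallyLE fun z hz => le_trans hρδ hz)

end Pool.Agent.PQP.H62
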